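import Pool.Agent.H63.WT.TB

/-!
# The relaxed local lemma: row EU9, forms in `I²`
-/

set_option autoImplicit false

open Polynomial Matrix Pool.Agent.H63.WT

namespace Pool.Agent.H18.WT

theorem isSquare_sq_mul {F : Type} [Field F] {c x : F} (hc : c ≠ 0) :
    IsSquare (c ^ 2 * x) ↔ IsSquare x := by
  constructor
  · rintro ⟨r, hr⟩
    refine ⟨r / c, ?_⟩
    field_simp
    linear_combination hr
  · rintro ⟨r, hr⟩
    exact ⟨c * r, by rw [hr]; ring⟩

theorem met_smul {F ι : Type} [Field F] [Fintype ι] (A : Matrix ι ι F) {c : F} (hc : c ≠ 0) :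
    Met (c • A) ↔ Met A := by
  have key : ∀ r, TIs (c • A) r ↔ TIs A r := by
    intro r
    constructor
    · rintro ⟨b, hb, h⟩
      refine ⟨b, hb, fun i j => ?_⟩
      have h1 := h i j
      rw [Matrix.smul_mulVec, dotProduct_smul, smul_eq_mul] at h1
      exact (mul_eq_zero.1 h1).resolve_left hc
    · rintro ⟨b, hb, h⟩
      refine ⟨b, hb, fun i j => ?_⟩
      rw [Matrix.smul_mulVec, dotProduct_smul, smul_eq_mul, h i j, mul_zero]
  unfold Met
  simp only [key]

theorem sn_gm {F : Type} [Field F] (hGDT : T_GDT) {A h : F[X]} (hA : A.Monic)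
    (hc : IsCoprime A h) : SN (gm A h) :=
  ⟨(hGDT F A hA).2.1 h, ((hGDT F A hA).2.2.1 h).2 hc⟩

theorem dd_one {F : Type} [Field F] (hGDT : T_GDT) {A : F[X]} (hA : A.Monic) :
    (gm A 1).det * (gm A 1).det = 1 := by
  rw [(hGDT F A hA).1, ← pow_add, ← two_mul, pow_mul]
  norm_num

theorem nn_ne {F : Type} [Field F] (hGDT : T_GDT) {A h : F[X]} (hA : A.Monic)
    (hc : IsCoprime A h) : nn A h ≠ 0 := by
  unfold nn
  refine mul_ne_zero (((hGDT F A hA).2.2.1 h).2 hc) ?_
  intro h0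
  have := dd_one hGDT hA
  rw [h0, mul_zero] at this
  exact zero_ne_one this

theorem sn_blocks {F ι κ : Type} [Field F] [Fintype ι] [DecidableEq ι] [Fintype κ]
    [DecidableEq κ] {A : Matrix ι ι F} {B : Matrix κ κ F} (hA : SN A) (hB : SN B) :
    SN (fromBlocks A 0 0 B) := by
  refine ⟨?_, ?_⟩
  · rw [Matrix.IsSymm, Matrix.fromBlocks_transpose, hA.1.eq, hB.1.eq, Matrix.transpose_zero,
      Matrix.transpose_zero]
  · rw [Matrix.det_fromBlocks_zero₂₁]
    exact mul_ne_zero hA.2 hB.2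

theorem pf_EU9 (hI2D : T_I2D) (hW0 : T_W0) (hCLS : T_CLS) (hAN4 : T_AN4) (hGDT : T_GDT)
    (hONE : T_ONE) (hSSQ : T_SSQ) : T_EU9 := by
  intro F _ h2
  have four : ∀ (M0 g : F[X]), M0.Monic → M0.natDegree = 4 → nn M0 g = (gm M0 g).det := by
    intro M0 g hM h4
    have h5 : (gm M0 1).det = 1 := by
      rw [(hGDT F M0 hM).1]
      have h6 : M0.natDegree * (M0.natDegree - 1) / 2 = 6 := by rw [h4]
      rw [h6]
      norm_num
    unfold nn
    rw [h5, mul_one]
  have hdet : ∀ (m : F) (M0 h : F[X]), M0.Monic → M0.natDegree = 4 →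
      (gm M0 (C m * h)).det = (m ^ 2) ^ 2 * nn M0 h := by
    intro m M0 h hM h4
    rw [← four M0 _ hM h4, (hGDT F M0 hM).2.2.2.1, (hGDT F M0 hM).2.2.2.2.1, h4]
    ring
  have hcopC : ∀ (m : F) (M0 h : F[X]), m ≠ 0 → IsCoprime M0 h → IsCoprime M0 (C m * h) := by
    intro m M0 h hm hc
    exact IsCoprime.mul_right (isCoprime_one_right.of_isCoprime_of_dvd_right
      (isUnit_iff_dvd_one.1 ((isUnit_C).2 hm.isUnit))) hc
  refine ⟨?_, ?_, ?_⟩
  · intro m M0 h hm hM h4 hc
    have hsn : SN (gm M0 (C m * h)) := sn_gm hGDT hM (hcopC m M0 h hm hc)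
    have hcard : Fintype.card (Fin M0.natDegree) = 2 * 2 := by
      rw [Fintype.card_fin, h4]
    refine ⟨?_, ?_⟩
    · change I2 (cls (gm M0 (C m * h))) ↔ _
      rw [hI2D F h2 _ _ 2 hsn hcard, hdet m M0 h hM h4, neg_one_sq, one_mul,
        isSquare_sq_mul (pow_ne_zero 2 hm)]
    · intro hsq
      have hmet : G m M0 h = 0 ↔ Met (gm M0 h) := by
        rw [← met_smul (gm M0 h) hm, ← (hSSQ F h2 M0 hM).2.2 m h]
        constructor
        · exact hW0 F h2 _ _ hsn
        · exact (hCLS F h2).1 _ _ hsn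
      refine ⟨?_, hmet⟩
      rw [hmet]
      apply hAN4 F h2 _ _ (by rw [hcard]) (sn_gm hGDT hM hc)
      rw [← four M0 h hM h4]
      exact hsq
  · intro A B M hA hB hM
    have hMB : IsCoprime A (M * B) := IsCoprime.mul_right hM hB
    have h1 : SN (gm A (M * B)) := sn_gm hGDT hA hMB
    have h3 : SN (gm A B) := sn_gm hGDT hA hB
    have h4 : SN (-gm A B) := by
      refine ⟨h3.1.neg, ?_⟩
      rw [Matrix.det_neg]
      exact mul_ne_zero (pow_ne_zero _ (neg_ne_zero.2 one_ne_zero)) h3.2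
    have h5 : qc A B M = cls (fromBlocks (gm A (M * B)) 0 0 (-gm A B)) := by
      rw [(hCLS F h2).2.1 _ _ _ _ h1 h4, (hCLS F h2).2.2.2.1 _ _ h3, ← sub_eq_add_neg]
      rfl
    rw [h5, hI2D F h2 _ _ A.natDegree (sn_blocks h1 h4) (by
      rw [Fintype.card_sum, Fintype.card_fin, two_mul]), Matrix.det_fromBlocks_zero₂₁,
      Matrix.det_neg, Fintype.card_fin]
    have h6 : ((-1 : F) ^ A.natDegree) * (-1) ^ A.natDegree = 1 := by
      rw [← mul_pow]
      norm_num
    have h7 := dd_one hGDT hA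
    have h8 : nn A (M * B) = nn A M * nn A B := (hGDT F A hA).2.2.2.1 M B
    have h9 : (-1 : F) ^ A.natDegree * ((gm A (M * B)).det * ((-1) ^ A.natDegree *
        (gm A B).det)) = (nn A B) ^ 2 * nn A M := by
      have h10 : nn A (M * B) * nn A B = (nn A B) ^ 2 * nn A M := by
        rw [h8]
        ring
      rw [← h10]
      unfold nn
      linear_combination ((gm A (M * B)).det * (gm A B).det) * h6 -
        ((gm A (M * B)).det * (gm A B).det) * h7
    rw [h9, isSquare_sq_mul (nn_ne hGDT hA hB)]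
  · intro m M0 A hm hM h4 hc hsq
    have hsn : SN (gm M0 (C m * A)) := sn_gm hGDT hM (hcopC m M0 A hm hc)
    have hne : ∀ i, (![1, -m] : Fin 2 → F) i ≠ 0 := by
      intro i
      fin_cases i
      · exact one_ne_zero
      · exact neg_ne_zero.2 hm
    have hd : SN (Matrix.diagonal (![1, -m] : Fin 2 → F)) := by
      refine ⟨Matrix.isSymm_diagonal _, ?_⟩
      rw [Matrix.det_diagonal]
      exact Finset.prod_ne_zero_iff.2 fun i _ => hne i
    have h5 : on 1 - on m + G m M0 A =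
        cls (fromBlocks (Matrix.diagonal (![1, -m] : Fin 2 → F)) 0 0 (gm M0 (C m * A))) := by
      rw [(hCLS F h2).2.1 _ _ _ _ hd hsn, (hONE F h2).2.2.1 _ _ hne, Fin.sum_univ_two]
      change _ = on 1 + on (-m) + G m M0 A
      rw [(hONE F h2).2.1 m hm, ← sub_eq_add_neg]
    rw [h5, hI2D F h2 _ _ 3 (sn_blocks hd hsn) (by
      rw [Fintype.card_sum, Fintype.card_fin, Fintype.card_fin, h4]),
      Matrix.det_fromBlocks_zero₂₁, Matrix.det_diagonal, hdet m M0 A hM h4, Fin.prod_univ_two]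
    have h6 : (-1 : F) ^ 3 * ((![1, -m] : Fin 2 → F) 0 * (![1, -m] : Fin 2 → F) 1 *
        ((m ^ 2) ^ 2 * nn M0 A)) = (m ^ 2) ^ 2 * (m * nn M0 A) := by
      simp
      ring
    rw [h6, isSquare_sq_mul (pow_ne_zero 2 hm)]
    exact hsq

end Pool.Agent.H18.WT
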