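import Pool.Agent.H63.WT.TD

/-!
# The relaxed local lemma, real numbers: row EXR
-/

set_option autoImplicit false

open Polynomial Matrix Pool.Agent.H63.WT

namespace Pool.Agent.H18.WT

open Pool.Agent.H32.QC (hil Sol)

theorem sol_real {a b : ℝ} (ha : a ≠ 0) (hb : b ≠ 0) : Sol a b ↔ (0 < a ∨ 0 < b) := by
  constructor
  · rintro ⟨x, y, z, h0, h⟩
    by_contra hcon
    rw [not_or, not_lt, not_lt] at hcon
    have h1 : a < 0 := lt_of_le_of_ne hcon.1 ha
    have h2 : b < 0 := lt_of_le_of_ne hcon.2 hb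
    have hx : x = 0 := by
      by_contra hx
      have h3 : 0 < x ^ 2 := by positivity
      nlinarith [sq_nonneg y, sq_nonneg z, mul_neg_of_neg_of_pos h1 h3,
        mul_nonpos_of_nonpos_of_nonneg h2.le (sq_nonneg y)]
    have hy : y = 0 := by
      by_contra hy
      have h3 : 0 < y ^ 2 := by positivity
      nlinarith [sq_nonneg x, sq_nonneg z, mul_neg_of_neg_of_pos h2 h3,
        mul_nonpos_of_nonpos_of_nonneg h1.le (sq_nonneg x)]
    have hz : z = 0 := by
      rw [hx, hy] at h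
      simp only [ne_eq, OfNat.ofNat_ne_zero, not_false_eq_true, zero_pow, mul_zero, add_zero,
        pow_eq_zero_iff] at h
      exact h
    rcases h0 with h0 | h0 | h0
    · exact h0 hx
    · exact h0 hy
    · exact h0 hz
  · rintro (h | h)
    · exact ⟨1, 0, Real.sqrt a, Or.inl one_ne_zero, by
        rw [Real.sq_sqrt h.le]
        ring⟩
    · exact ⟨0, 1, Real.sqrt b, Or.inr (Or.inl one_ne_zero), by
        rw [Real.sq_sqrt h.le]
        ring⟩

/-- the signature of a Pfister form -/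
theorem sig_pf (s : WG ℝ →+ ℤ) (hs : ∀ a : ℝ, a ≠ 0 → s (on a) = if 0 < a then 1 else -1)
    {a b : ℝ} (ha : a ≠ 0) (hb : b ≠ 0) :
    s (on 1 - on a - on b + on (a * b)) = if 0 < a ∨ 0 < b then 0 else 4 := by
  rw [map_add, map_sub, map_sub, hs 1 one_ne_zero, hs a ha, hs b hb, hs _ (mul_ne_zero ha hb),
    if_pos one_pos]
  rcases lt_or_gt_of_ne ha with h1 | h1 <;> rcases lt_or_gt_of_ne hb with h2 | h2
  · rw [if_neg (not_lt.2 h1.le), if_neg (not_lt.2 h2.le), if_pos (mul_pos_of_neg_of_neg h1 h2),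
      if_neg (by rw [not_or]; exact ⟨not_lt.2 h1.le, not_lt.2 h2.le⟩)]
    norm_num
  · rw [if_neg (not_lt.2 h1.le), if_pos h2, if_neg (not_lt.2 (mul_neg_of_neg_of_pos h1 h2).le),
      if_pos (Or.inr h2)]
    norm_num
  · rw [if_pos h1, if_neg (not_lt.2 h2.le), if_neg (not_lt.2 (mul_neg_of_pos_of_neg h1 h2).le),
      if_pos (Or.inl h1)]
    norm_num
  · rw [if_pos h1, if_pos h2, if_pos (mul_pos h1 h2), if_pos (Or.inl h1)]
    norm_num

theorem hil_real {a b : ℝ} (ha : a ≠ 0) (hb : b ≠ 0) :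
    hil a b = if 0 < a ∨ 0 < b then 1 else -1 := by
  unfold hil
  by_cases h : 0 < a ∨ 0 < b
  · rw [if_pos ((sol_real ha hb).2 h), if_pos h]
  · rw [if_neg (fun h' => h ((sol_real ha hb).1 h')), if_neg h]

theorem pf_EXR (hRSG : T_RSG) (hPFI : T_PFI) (hONE : T_ONE) (hI2A : T_I2A) : T_EXR := by
  classical
  have h2 : (2 : ℝ) ≠ 0 := two_ne_zero
  obtain ⟨s0, hs0, hinj, h4⟩ := hRSG
  have hpf4 : ∀ k : ℤ, (8 : ℤ) ∣ 4 * k ↔ Even k := by
    intro k
    rw [even_iff_two_dvd]
    omega
  refine ⟨⟨fun x => if (8 : ℤ) ∣ s0 x then 1 else -1, ?_, ?_, ?_⟩, ?_⟩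
  · intro x
    split_ifs
    · exact Or.inl rfl
    · exact Or.inr rfl
  · intro x y hx hy
    obtain ⟨a, ha⟩ := h4 x hx
    obtain ⟨b, hb⟩ := h4 y hy
    rw [map_add, ha, hb, ← mul_add]
    simp only [hpf4]
    rcases Int.even_or_odd a with h5 | h5 <;> rcases Int.even_or_odd b with h6 | h6
    · rw [if_pos (h5.add h6), if_pos h5, if_pos h6]
      norm_num
    · rw [if_neg (Int.not_even_iff_odd.2 (h5.add_odd h6)), if_pos h5,
        if_neg (Int.not_even_iff_odd.2 h6)]
      norm_num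
    · rw [if_neg (Int.not_even_iff_odd.2 (h5.add_even h6)),
        if_neg (Int.not_even_iff_odd.2 h5), if_pos h6]
      norm_num
    · rw [if_pos (h5.add_odd h6), if_neg (Int.not_even_iff_odd.2 h5),
        if_neg (Int.not_even_iff_odd.2 h6)]
      norm_num
  · intro a b ha hb
    rw [sig_pf s0 hs0 ha hb, hil_real ha hb]
    by_cases h : 0 < a ∨ 0 < b
    · rw [if_pos h, if_pos h, if_pos (dvd_zero _)]
    · rw [if_neg h, if_neg h, if_neg (by norm_num)]
  · intro s e hs he x hx
    have hss : ∀ y : WG ℝ, s y = s0 y := by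
      intro y
      obtain ⟨n, a, ha, hy⟩ := (hONE ℝ h2).2.2.2 y
      rw [hy, map_sum, map_sum]
      apply Finset.sum_congr rfl
      intro i _
      rw [hs _ (ha i), hs0 _ (ha i)]
    rw [hss]
    obtain ⟨k, hk⟩ := h4 x hx
    have hm1 : (-1 : ℝ) ≠ 0 := by norm_num
    set y : WG ℝ := pf (-1) (-1) with hy
    have hy2 : I2 y := (hPFI ℝ h2 (-1) (-1) hm1 hm1).1
    have hey : e y = -1 := by
      rw [hy]
      unfold pf
      rw [he.pfi (-1) (-1) hm1 hm1, hil_real hm1 hm1, if_neg (by norm_num)]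
    have hsy : s0 y = 4 := by
      rw [hy]
      unfold pf
      rw [sig_pf s0 hs0 hm1 hm1, if_neg (by norm_num)]
    have h0 : I2 (0 : WG ℝ) := (hI2A ℝ h2).1
    have he0 : e 0 = 1 := by
      have h5 := he.add 0 0 h0 h0
      rw [add_zero] at h5
      rcases he.sgn 0 with h6 | h6
      · exact h6
      · rw [h6] at h5
        norm_num at h5
    have hnat : ∀ n : ℕ, I2 ((n : ℤ) • y) ∧ e ((n : ℤ) • y) = (-1) ^ n := by
      intro n
      induction n with
      | zero =>
        rw [Nat.cast_zero, zero_smul, pow_zero]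
        exact ⟨h0, he0⟩
      | succ n ih =>
        rw [Nat.cast_succ, add_smul, one_smul]
        refine ⟨(hI2A ℝ h2).2.1 _ _ ih.1 hy2, ?_⟩
        rw [he.add _ _ ih.1 hy2, ih.2, hey, pow_succ]
    have hxk : x = k • y := by
      apply hinj
      rw [hk, map_zsmul, hsy, smul_eq_mul]
      ring
    have hex : e x = 1 ↔ Even k := by
      rw [hxk]
      obtain ⟨n, hn | hn⟩ := Int.eq_nat_or_neg k
      · rw [hn, (hnat n).2, Int.even_coe_nat]
        rcases Nat.even_or_odd n with h5 | h5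
        · rw [h5.neg_one_pow]
          simp [h5]
        · rw [h5.neg_one_pow]
          simp only [Nat.not_even_iff_odd.2 h5, iff_false]
          norm_num
      · have h5 : I2 (-((n : ℤ) • y)) := (hI2A ℝ h2).2.2 _ (hnat n).1
        have h6 := he.add _ _ (hnat n).1 h5
        rw [add_neg_cancel, he0, (hnat n).2] at h6
        rw [hn, neg_smul, even_neg, Int.even_coe_nat]
        rcases Nat.even_or_odd n with h7 | h7
        · rw [h7.neg_one_pow, one_mul] at h6
          simp only [h7, iff_true]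
          exact h6.symm
        · rw [h7.neg_one_pow] at h6
          simp only [Nat.not_even_iff_odd.2 h7, iff_false]
          intro h8
          rw [h8] at h6
          norm_num at h6
    rw [hex, hk, hpf4]

end Pool.Agent.H18.WT
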