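import Pool.Agent.H63.WT.TA

/-!
# The relaxed local lemma: row HPR, the product of the symbols
-/

set_option autoImplicit false

open Polynomial Matrix Pool.Agent.H63.WT

namespace Pool.Agent.H18.WT

theorem solM_symm {F : Type} [Field F] (p a b : F[X]) : SolM p a b ↔ SolM p b a := by
  have key : ∀ a b : F[X], SolM p a b → SolM p b a := by
    rintro a b ⟨x, y, z, h0, h⟩
    refine ⟨y, x, z, ?_, ?_⟩
    · tauto
    · have h1 : z ^ 2 - b * y ^ 2 - a * x ^ 2 = z ^ 2 - a * x ^ 2 - b * y ^ 2 := by ring
      rw [h1]
      exact h
  exact ⟨key a b, key b a⟩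

theorem hm_symm {F : Type} [Field F] (p a b : F[X]) : hm p a b = hm p b a := by
  unfold hm
  by_cases h : SolM p a b
  · rw [if_pos h, if_pos ((solM_symm p a b).1 h)]
  · rw [if_neg h, if_neg fun h' => h ((solM_symm p a b).2 h')]

theorem hm_or {F : Type} [Field F] (p a b : F[X]) : hm p a b = 1 ∨ hm p a b = -1 := by
  unfold hm
  split_ifs
  · exact Or.inl rfl
  · exact Or.inr rfl

theorem prod_or {F : Type} [Field F] (a b : F[X]) (s : Multiset F[X]) :
    (s.map fun p => hm p a b).prod = 1 ∨ (s.map fun p => hm p a b).prod = -1 := by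
  induction s using Multiset.induction_on with
  | empty => exact Or.inl (by rw [Multiset.map_zero, Multiset.prod_zero])
  | cons p s ih =>
    rw [Multiset.map_cons, Multiset.prod_cons]
    rcases hm_or p a b with h | h <;> rcases ih with h' | h' <;> rw [h, h'] <;> norm_num

theorem hpr_or {F : Type} [Field F] (A a b : F[X]) : hpr A a b = 1 ∨ hpr A a b = -1 :=
  prod_or a b _

theorem hpr_mul {F : Type} [Field F] {p B : F[X]} (hp : p.Monic) (hi : Irreducible p)
    (hB : B.Monic) (a b : F[X]) : hpr (p * B) a b = hm p a b * hpr B a b := by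
  classical
  unfold hpr
  rw [UniqueFactorizationMonoid.normalizedFactors_mul hp.ne_zero hB.ne_zero,
    UniqueFactorizationMonoid.normalizedFactors_irreducible hi, hp.normalize_eq_self,
    Multiset.map_add, Multiset.prod_add, Multiset.map_singleton, Multiset.prod_singleton]

theorem pf_HPR (hSYF : T_SYF) (hSYH : T_SYH) (hSYI : T_SYI) (hIV : T_IV) : T_HPR := by
  intro F _ _ hF A a b hA hs ha hb
  refine ⟨?_, hpr_or A a b, ?_⟩
  · unfold hpr
    congr 1
    apply Multiset.map_congr rfl
    intro p _
    exact hm_symm p a b
  · have h2 : (2 : F) ≠ 0 := hF.1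
    obtain ⟨hN, hq⟩ := hF.2 F inferInstance
    obtain ⟨hx2, heq, -, -⟩ := hIV F h2 hN hq
    induction hn : A.natDegree using Nat.strong_induction_on generalizing A with
    | _ n ih =>
    rcases Nat.eq_zero_or_pos n with h0 | h0
    · have hA1 : A = 1 := hA.natDegree_eq_zero.1 (hn.trans h0)
      subst hA1
      have h3 := hSYF F hF 1 1 a b monic_one monic_one (by rw [one_mul]; exact hs)
        (by rw [one_mul]; exact ha) (by rw [one_mul]; exact hb)
      rw [one_mul, left_eq_add] at h3
      have h4 : hpr (1 : F[X]) a b = 1 := by
        unfold hpr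
        simp
      rw [h4, h3]
      simp
    · have hu : ¬ IsUnit A := by
        intro hu
        have := natDegree_eq_zero_of_isUnit hu
        omega
      obtain ⟨p, hpm, hp, B, rfl⟩ := exists_monic_irreducible_factor A hu
      have hB : B.Monic := hpm.of_mul_monic_left hA
      have hBs : B.Separable := hs.of_mul_right
      have hpa := (IsCoprime.mul_left_iff.1 ha)
      have hpb := (IsCoprime.mul_left_iff.1 hb)
      have hpd : 0 < p.natDegree := hp.natDegree_pos
      have hlt : B.natDegree < n := by
        rw [← hn, hpm.natDegree_mul hB]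
        omega
      have hi := ih B.natDegree hlt B hB hBs hpa.2 hpb.2 rfl
      have hh := hSYH F hF p a b hpm hp hpa.1 hpb.1
      have hpi : I2 (sy p a b) := hSYI F h2 p a b hpm hpa.1 hpb.1
      have hBi : I2 (sy B a b) := hSYI F h2 B a b hB hpa.2 hpb.2
      rw [hpr_mul hpm hp hB, hSYF F hF p B a b hpm hB hs ha hb]
      have hm1 : hm p a b = 1 ↔ sy p a b = 0 := by
        rw [hh]
        unfold hm
        split_ifs with h
        · simp [h]
        · simp [h]
      by_cases h5 : sy p a b = 0 <;> by_cases h6 : sy B a b = 0
      · rw [hm1.2 h5, hi.2 h6, h5, h6]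
        simp
      · have h7 : hpr B a b = -1 := by
          rcases hpr_or B a b with h | h
          · exact absurd (hi.1 h) h6
          · exact h
        rw [hm1.2 h5, h7, h5, zero_add]
        simp only [h6, iff_false]
        norm_num
      · have h7 : hm p a b = -1 := by
          rcases hm_or p a b with h | h
          · exact absurd (hm1.1 h) h5
          · exact h
        rw [h7, hi.2 h6, h6, add_zero]
        simp only [h5, iff_false]
        norm_num
      · have h7 : hm p a b = -1 := by
          rcases hm_or p a b with h | h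
          · exact absurd (hm1.1 h) h5
          · exact h
        have h8 : hpr B a b = -1 := by
          rcases hpr_or B a b with h | h
          · exact absurd (hi.1 h) h6
          · exact h
        rw [h7, h8, heq _ _ hpi hBi h5 h6, hx2 _ hBi]
        norm_num

end Pool.Agent.H18.WT
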