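import Pool.Agent.H63.WT.TD

/-!
# The relaxed local lemma, real numbers: row RAL
-/

set_option autoImplicit false

open Polynomial Matrix Pool.Agent.H63.WT

namespace Pool.Agent.H18.WT

/-- the sign of a product of differences -/
theorem prod_sign (e : ℝ) (T : Finset ℝ) : e ∉ T → (∏ x ∈ T, (e - x) ≠ 0) ∧
    (0 < ∏ x ∈ T, (e - x) ↔ Even ((T.filter fun x => e < x).card)) := by
  induction T using Finset.induction_on with
  | empty =>
    intro _
    simp
  | insert a T ha ih =>
    intro he
    rw [Finset.mem_insert, not_or] at he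
    obtain ⟨h1, h2⟩ := ih he.2
    have h3 : e - a ≠ 0 := sub_ne_zero.2 he.1
    rw [Finset.prod_insert ha, Finset.filter_insert]
    refine ⟨mul_ne_zero h3 h1, ?_⟩
    split_ifs with h
    · rw [Finset.card_insert_of_notMem (fun h' => ha (Finset.mem_filter.1 h').1),
        Nat.even_add_one, ← h2]
      have h4 : e - a < 0 := sub_neg.2 h
      constructor
      · intro h5 h6
        exact absurd (mul_neg_of_neg_of_pos h4 h6) (not_lt.2 h5.le)
      · intro h5
        exact mul_pos_of_neg_of_neg h4 (lt_of_le_of_ne (not_lt.1 h5) h1)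
    · have h4 : 0 < e - a := lt_of_le_of_ne (sub_nonneg.2 (not_lt.1 h)) h3.symm
      rw [← h2]
      exact mul_pos_iff_of_pos_left h4

/-- a monic real polynomial without roots is positive -/
theorem pos_of_no_root {Q : ℝ[X]} (hQ : Q.Monic) (h : ∀ x, eval x Q ≠ 0) (x : ℝ) :
    0 < eval x Q := by
  by_contra hcon
  have hx : eval x Q < 0 := lt_of_le_of_ne (not_lt.1 hcon) (h x)
  rcases Nat.eq_zero_or_pos Q.natDegree with h0 | h0
  · rw [hQ.natDegree_eq_zero.1 h0, eval_one] at hx
    linarith
  · have h1 : Filter.Tendsto (fun x => eval x Q) Filter.atTop Filter.atTop :=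
      Q.tendsto_atTop_of_leadingCoeff_nonneg (natDegree_pos_iff_degree_pos.1 h0) (by
        rw [hQ.leadingCoeff]
        exact zero_le_one)
    obtain ⟨y, hy1, hy2⟩ := ((h1.eventually_gt_atTop 0).and
      (Filter.eventually_ge_atTop x)).exists
    have h2 := intermediate_value_Icc hy2 (Q.continuous.continuousOn (s := Set.Icc x y))
    obtain ⟨z, -, hz⟩ := h2 ⟨hx.le, hy1.le⟩
    exact h z hz

/-- the factorization of a separable real polynomial -/
theorem real_factor {P : ℝ[X]} (hP : P.Monic) (hs : P.Separable) : ∃ Q : ℝ[X], Q.Monic ∧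
    (∀ x, eval x Q ≠ 0) ∧ P = (∏ x ∈ P.roots.toFinset, (X - C x)) * Q := by
  obtain ⟨q, hq, -, hr⟩ := exists_prod_multiset_X_sub_C_mul P
  have h3 : P.roots.Nodup := nodup_roots hs
  have h5 : (P.roots.map fun a => X - C a).prod = ∏ a ∈ P.roots.toFinset, (X - C a) := by
    rw [Finset.prod_eq_multiset_prod]
    congr 2
    exact (Multiset.dedup_eq_self.2 h3).symm
  have hm : (∏ x ∈ P.roots.toFinset, (X - C x) : ℝ[X]).Monic :=
    monic_prod_of_monic _ _ fun x _ => monic_X_sub_C x
  rw [h5] at hq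
  have hqm : q.Monic := by
    apply hm.of_mul_monic_left
    rw [hq]
    exact hP
  refine ⟨q, hqm, ?_, hq.symm⟩
  intro x hx
  have h6 : x ∈ q.roots := by
    rw [mem_roots hqm.ne_zero, IsRoot.def]
    exact hx
  rw [hr] at h6
  exact Multiset.notMem_zero _ h6

theorem pf_RAL : T_RAL := by
  intro P hP hs e he
  obtain ⟨Q, hQ, hQ0, hPQ⟩ := real_factor hP hs
  set R := P.roots.toFinset with hR
  have h1 : P = (X - C e) * ((∏ x ∈ R.erase e, (X - C x)) * Q) := by
    rw [hPQ, ← Finset.mul_prod_erase R (fun x => (X - C x : ℝ[X])) he]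
    ring
  have h2 : eval e (derivative P) = (∏ x ∈ R.erase e, (e - x)) * eval e Q := by
    rw [h1, derivative_mul, derivative_X_sub_C, eval_add, eval_mul, eval_mul, eval_mul,
      eval_prod]
    simp
  obtain ⟨-, h3⟩ := prod_sign e (R.erase e) (Finset.notMem_erase e R)
  rw [h2, mul_pos_iff_of_pos_right (pos_of_no_root hQ hQ0 e), h3]
  have h4 : (R.erase e).filter (fun x => e < x) = R.filter fun x => e < x := by
    ext x
    simp only [Finset.mem_filter, Finset.mem_erase]
    constructor
    · rintro ⟨⟨_, h⟩, h'⟩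
      exact ⟨h, h'⟩
    · rintro ⟨h, h'⟩
      exact ⟨⟨h'.ne', h⟩, h'⟩
  rw [h4]

end Pool.Agent.H18.WT
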