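import Pool.Agent.H63.WT.TD

/-!
# The relaxed local lemma, real numbers: row RTF
-/

set_option autoImplicit false

open Polynomial Matrix Pool.Agent.H63.WT

namespace Pool.Agent.H18.WT

theorem eval_ne_of_cop {F : Type*} [Field F] {A h : F[X]} (hc : IsCoprime A h) {e : F}
    (he : eval e A = 0) : eval e h ≠ 0 := by
  intro h0
  obtain ⟨a, b, hab⟩ := hc
  have h1 := congrArg (eval e) hab
  rw [eval_add, eval_mul, eval_mul, he, h0, mul_zero, mul_zero, add_zero, eval_one] at h1
  exact zero_ne_one h1

/-- modulo a real irreducible polynomial without roots every element is a square -/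
theorem sq_mod {p g : ℝ[X]} (hp : Irreducible p) (hr : ∀ x, eval x p ≠ 0) :
    ∃ z : ℝ[X], p ∣ g - z ^ 2 := by
  have hd : p.degree ≠ 0 := by
    intro h
    rw [eq_C_of_degree_eq_zero h] at hp
    apply hp.not_isUnit
    rw [isUnit_C]
    apply Ne.isUnit
    intro h0
    rw [h0, C_0] at hp
    exact hp.ne_zero rfl
  obtain ⟨w, hw⟩ := IsAlgClosed.exists_aeval_eq_zero ℂ p hd
  have hev : ∀ (e : ℝ) (g : ℝ[X]), aeval (e : ℂ) g = ((eval e g : ℝ) : ℂ) := by
    intro e g
    have := aeval_algebraMap_apply ℂ e g
    rw [coe_aeval_eq_eval] at this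
    exact this
  have him : w.im ≠ 0 := by
    intro h
    have h3 : ((w.re : ℝ) : ℂ) = w := Complex.ext rfl (by simp [h])
    rw [← h3, hev] at hw
    exact hr _ (by exact_mod_cast hw)
  obtain ⟨ζ, hζ⟩ := IsAlgClosed.exists_pow_nat_eq (aeval w g) (n := 2) (by norm_num)
  refine ⟨C (ζ.re - ζ.im / w.im * w.re) + C (ζ.im / w.im) * X, ?_⟩
  by_contra hcon
  obtain ⟨a, b, hab⟩ := (hp.coprime_iff_not_dvd).2 hcon
  have hz : aeval w (C (ζ.re - ζ.im / w.im * w.re) + C (ζ.im / w.im) * X : ℝ[X]) = ζ := by
    rw [map_add, map_mul, aeval_C, aeval_C, aeval_X]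
    apply Complex.ext
    · simp
    · simp
      field_simp
  have h1 := congrArg (aeval w) hab
  rw [map_add, map_mul, map_mul, hw, mul_zero, zero_add, map_sub, map_pow, hz, hζ, sub_self,
    mul_zero, map_one] at h1
  exact zero_ne_one h1

theorem pf_RTF (hSCR : T_SCR) (hSSQ : T_SSQ) (hSEU : T_SEU) : T_RTF := by
  intro s hs A
  have h2 : (2 : ℝ) ≠ 0 := two_ne_zero
  induction hn : A.natDegree using Nat.strong_induction_on generalizing A with
  | _ n ih =>
  intro h hA hsep hcop
  rcases Nat.eq_zero_or_pos n with h0 | h0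
  · have hA1 : A = 1 := hA.natDegree_eq_zero.1 (hn.trans h0)
    subst hA1
    have h3 : S (1 : ℝ[X]) h = S 1 (C 1) := by
      apply (hSSQ ℝ h2 1 monic_one).1 h (C 1) 1 hcop
      · exact isCoprime_one_left
      · exact one_dvd _
    rw [h3, hSEU ℝ h2 1 1 monic_one one_ne_zero]
    simp
  · have hu : ¬ IsUnit A := by
      intro hu
      have := natDegree_eq_zero_of_isUnit hu
      omega
    obtain ⟨p, hpm, hp, B, rfl⟩ := exists_monic_irreducible_factor A hu
    have hB : B.Monic := hpm.of_mul_monic_left hA
    have hpB : IsCoprime p B := hsep.isCoprime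
    have hBs : B.Separable := hsep.of_mul_right
    have hph : IsCoprime p h := (IsCoprime.mul_left_iff.1 hcop).1
    have hBh : IsCoprime B h := (IsCoprime.mul_left_iff.1 hcop).2
    have hpd : 0 < p.natDegree := hp.natDegree_pos
    have hlt : B.natDegree < n := by
      rw [← hn, hpm.natDegree_mul hB]
      omega
    have hi := ih B.natDegree hlt B rfl (h * p) hB hBs
      (IsCoprime.mul_right hBh hpB.symm)
    rw [hSCR ℝ h2 p B h hpm hB hpB hcop, map_add, hi]
    have hroots : (p * B).roots.toFinset = p.roots.toFinset ∪ B.roots.toFinset := by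
      rw [roots_mul (mul_ne_zero hpm.ne_zero hB.ne_zero), Multiset.toFinset_add]
    have hmem : ∀ (q : ℝ[X]), q ≠ 0 → ∀ e, e ∈ q.roots.toFinset ↔ eval e q = 0 := by
      intro q hq e
      rw [Multiset.mem_toFinset, mem_roots hq, IsRoot.def]
    have hdisj : Disjoint p.roots.toFinset B.roots.toFinset := by
      rw [Finset.disjoint_left]
      intro e h1 h3
      rw [hmem p hpm.ne_zero] at h1
      rw [hmem B hB.ne_zero] at h3
      exact eval_ne_of_cop hpB h1 h3
    have hBsum : ∑ e ∈ B.roots.toFinset,
        (if 0 < eval e (h * p) / eval e (derivative B) then (1 : ℤ) else -1) =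
        ∑ e ∈ B.roots.toFinset,
        (if 0 < eval e h / eval e (derivative (p * B)) then (1 : ℤ) else -1) := by
      apply Finset.sum_congr rfl
      intro e he
      rw [hmem B hB.ne_zero] at he
      have hpe : eval e p ≠ 0 := eval_ne_of_cop hpB.symm he
      have h4 : eval e (h * p) / eval e (derivative B) =
          eval e h / eval e (derivative (p * B)) * (eval e p) ^ 2 := by
        rw [derivative_mul, eval_add, eval_mul, eval_mul, eval_mul, he, mul_zero, zero_add]
        by_cases hb : eval e (derivative B) = 0
        · rw [hb]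
          simp
        · field_simp
      have h9 : (0 < eval e h / eval e (derivative (p * B)) * (eval e p) ^ 2) ↔
          0 < eval e h / eval e (derivative (p * B)) := mul_pos_iff_of_pos_right (by positivity)
      rw [h4]
      simp only [h9]
    rw [hroots, Finset.sum_union hdisj, hBsum]
    congr 1
    by_cases hr : ∃ t, eval t p = 0
    · obtain ⟨t, ht⟩ := hr
      have hpt : p = X - C t := by
        have h5 : X - C t ∣ p := dvd_iff_isRoot.2 ht
        obtain ⟨c, hc⟩ := h5
        have h6 := hp.isUnit_or_isUnit hc
        rcases h6 with h6 | h6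
        · exact absurd h6 (not_isUnit_X_sub_C t)
        · have h7 : c.Monic := (monic_X_sub_C t).of_mul_monic_left (hc ▸ hpm)
          rw [hc, h7.eq_one_of_isUnit h6, mul_one]
      have hroot : p.roots.toFinset = {t} := by
        rw [hpt, roots_X_sub_C]
        rfl
      rw [hroot, Finset.sum_singleton]
      have hBt : eval t B ≠ 0 := eval_ne_of_cop hpB ht
      have hht : eval t h ≠ 0 := eval_ne_of_cop hph ht
      have hne : eval t (h * B) ≠ 0 := by
        rw [eval_mul]
        exact mul_ne_zero hht hBt
      rw [(hSSQ ℝ h2 p hpm).2.1 t hpt (h * B) hne, hs _ hne]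
      have h8 : eval t (h * B) = eval t h / eval t (derivative (p * B)) * (eval t B) ^ 2 := by
        rw [derivative_mul, eval_add, eval_mul, eval_mul, eval_mul, ht, zero_mul, add_zero,
          hpt, derivative_X_sub_C, eval_one, one_mul]
        field_simp
      rw [h8]
      have h9 : (0 < eval t h / eval t (derivative (p * B)) * (eval t B) ^ 2) ↔
          0 < eval t h / eval t (derivative (p * B)) := mul_pos_iff_of_pos_right (by positivity)
      simp only [h9]
    · push Not at hr
      have hroot : p.roots.toFinset = ∅ := by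
        rw [Finset.eq_empty_iff_forall_notMem]
        intro e he
        rw [hmem p hpm.ne_zero] at he
        exact hr e he
      rw [hroot, Finset.sum_empty]
      obtain ⟨z, hz⟩ := sq_mod (g := h * B) hp hr
      have h3 : S p (h * B) = S p (C 1) := by
        apply (hSSQ ℝ h2 p hpm).1 (h * B) (C 1) z (IsCoprime.mul_right hph hpB)
        · rw [C_1]
          exact isCoprime_one_right
        · rw [C_1, one_mul]
          exact hz
      have heven : Even p.natDegree := by
        have h4 := hp.natDegree_le_two
        rcases Nat.lt_or_ge p.natDegree 2 with h5 | h5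
        · exfalso
          have h6 : p.natDegree = 1 := by omega
          obtain ⟨x, hx⟩ := exists_root_of_degree_eq_one
            ((degree_eq_iff_natDegree_eq hpm.ne_zero).2 h6)
          exact hr x hx
        · exact ⟨1, by omega⟩
      rw [h3, hSEU ℝ h2 p 1 hpm one_ne_zero, if_pos heven, map_zero]

end Pool.Agent.H18.WT
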