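import Pool.Agent.H63.WT.TD

/-!
# The relaxed local lemma, real numbers: rows RTI and RND
-/

set_option autoImplicit false

open Polynomial Matrix Pool.Agent.H63.WT

namespace Pool.Agent.H18.WT

open Pool.Agent.H34.N6 (ft lam pol TI CZ gA)
open Pool.Agent.H70.N6 (gr sg rc)

theorem gr_eq (P D : ℝ[X]) (t e : ℝ) :
    gr P D t e = eval e D * (e - t) / eval e (derivative P) := by
  unfold gr
  rw [eval_mul, eval_sub, eval_X, eval_C]

theorem gr_ne {P D : ℝ[X]} {t : ℝ} (hP : P.Monic) (hs : P.Separable) (hD : IsCoprime P D)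
    (ht : eval t P ≠ 0) : ∀ e ∈ P.roots.toFinset, gr P D t e ≠ 0 := by
  intro e he
  have h0 : eval e P = 0 := by
    rw [Multiset.mem_toFinset, mem_roots hP.ne_zero, IsRoot.def] at he
    exact he
  have h1 : eval e D ≠ 0 := by
    intro h
    obtain ⟨a, b, hab⟩ := hD
    have h1 := congrArg (eval e) hab
    rw [eval_add, eval_mul, eval_mul, h0, h, mul_zero, mul_zero, add_zero, eval_one] at h1
    exact zero_ne_one h1
  have h2 : eval e (derivative P) ≠ 0 := by
    intro h
    obtain ⟨a, b, hab⟩ := hs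
    have h1 := congrArg (eval e) hab
    rw [eval_add, eval_mul, eval_mul, h0, h, mul_zero, mul_zero, add_zero, eval_one] at h1
    exact zero_ne_one h1
  rw [gr_eq]
  refine div_ne_zero (mul_ne_zero h1 ?_) h2
  intro h
  rw [sub_eq_zero] at h
  exact ht (h ▸ h0)

theorem ft_neg (P D : ℝ[X]) (t : ℝ) : ft P (-D) t = -ft P D t := by
  ext i j
  simp only [ft, gA, Matrix.sub_apply, Matrix.smul_apply, Matrix.neg_apply, neg_mul,
    Pool.Agent.H34.N6.lam_neg, smul_eq_mul]
  ring

theorem ti_neg {A : Matrix (Fin 7) (Fin 7) ℝ} {r : ℕ} (h : TI (-A) r) : TI A r := by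
  obtain ⟨b, hb, h1⟩ := h
  refine ⟨b, hb, fun i j => ?_⟩
  have h2 := h1 i j
  rw [Matrix.neg_mulVec, dotProduct_neg, neg_eq_zero] at h2
  exact h2

theorem pf_RTI : T_RTI := by
  intro P D t hP hs h7 hD ht habs
  have hne := gr_ne hP hs hD ht
  have hsum : ∑ e ∈ P.roots.toFinset,
      (if 0 < eval e D * (e - t) / eval e (derivative P) then (1 : ℤ) else -1) =
      ∑ e ∈ P.roots.toFinset, sg (gr P D t e) := by
    apply Finset.sum_congr rfl
    intro e _
    rw [gr_eq]
    rfl
  rw [hsum] at habs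
  rcases abs_eq (by norm_num : (0 : ℤ) ≤ 1) |>.1 habs with h | h
  · exact Pool.Agent.H70.N6.ti_real P D t hP h7 hs hne h
  · have hD' : IsCoprime P (-D) := hD.neg_right
    have hgr : ∀ e, gr P (-D) t e = -gr P D t e := by
      intro e
      rw [gr_eq, gr_eq, eval_neg]
      ring
    have hsg : ∀ e ∈ P.roots.toFinset, sg (gr P (-D) t e) = -sg (gr P D t e) := by
      intro e he
      rw [hgr]
      rcases lt_or_gt_of_ne (hne e he) with h1 | h1
      · rw [Pool.Agent.H70.N6.sg_neg h1, Pool.Agent.H70.N6.sg_pos (neg_pos.2 h1)]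
        norm_num
      · rw [Pool.Agent.H70.N6.sg_pos h1, Pool.Agent.H70.N6.sg_neg (neg_lt_zero.2 h1)]
    have h1 := Pool.Agent.H70.N6.ti_real P (-D) t hP h7 hs (gr_ne hP hs hD' ht) (by
      rw [Finset.sum_congr rfl hsg, Finset.sum_neg_distrib, h]
      norm_num)
    rw [ft_neg] at h1
    exact ti_neg h1

theorem pf_RND : T_RND := by
  intro P D hP hs h7 hD hcz t ht
  have hne := gr_ne hP hs hD ht
  have hsum : ∑ e ∈ P.roots.toFinset,
      (if 0 < eval e D * (e - t) / eval e (derivative P) then (1 : ℤ) else -1) =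
      ∑ e ∈ P.roots.toFinset, sg (gr P D t e) := by
    apply Finset.sum_congr rfl
    intro e _
    rw [gr_eq]
    rfl
  rw [hsum]
  set R := P.roots.toFinset with hR
  set Zp := R.filter (fun e => 0 < gr P D t e) with hZp
  set Zm := R.filter (fun e => ¬ 0 < gr P D t e) with hZm
  have h1 := Finset.sum_filter_add_sum_filter_not R (fun e => 0 < gr P D t e)
      (fun e => sg (gr P D t e))
  have e1 : ∑ e ∈ R.filter (fun e => 0 < gr P D t e), sg (gr P D t e) =
      ∑ e ∈ R.filter (fun e => 0 < gr P D t e), 1 :=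
    Finset.sum_congr rfl fun e he => Pool.Agent.H70.N6.sg_pos (Finset.mem_filter.1 he).2
  have e2 : ∑ e ∈ R.filter (fun e => ¬ 0 < gr P D t e), sg (gr P D t e) =
      ∑ e ∈ R.filter (fun e => ¬ 0 < gr P D t e), (-1) :=
    Finset.sum_congr rfl fun e he => if_neg (Finset.mem_filter.1 he).2
  rw [e1, e2, Finset.sum_const, Finset.sum_const] at h1
  simp only [nsmul_eq_mul, mul_one, mul_neg] at h1
  have hc : Zp.card + Zm.card = R.card := Finset.card_filter_add_card_filter_not _
  have hcard : R.card + 2 * ((rc P).filter (fun z => 0 < z.im)).card = 7 := by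
    rw [← h7]
    exact (Pool.Agent.H70.N6.card_eq hP hs).symm
  have h1' : ∑ e ∈ R, sg (gr P D t e) = (Zp.card : ℤ) - Zm.card := by
    rw [← h1]
    exact (sub_eq_add_neg _ _).symm
  -- all real roots with the same sign
  have hdef : R.card = 7 → (Zp = ∅ ∨ Zm = ∅) → False := by
    intro h7' hZ
    have hH : ∀ z ∈ (rc P).filter (fun z => 0 < z.im), False := by
      intro z hz
      have := Finset.card_pos.2 ⟨z, hz⟩
      omega
    obtain ⟨x, hx, hx0, hx1⟩ := hcz
    have hv : lam P (D * (X - C t) * pol x * pol x) = 0 := by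
      rw [← Pool.Agent.H34.N6.ft_bilin]
      unfold ft
      rw [Matrix.sub_mulVec, Matrix.smul_mulVec, dotProduct_sub, dotProduct_smul, hx0, hx1]
      simp
    rw [Pool.Agent.H70.N6.lam_split P D t hP hs x (fun z hz => (hH z hz).elim)] at hv
    have hall : ∀ e ∈ R, gr P D t e * (eval e (pol x)) ^ 2 = 0 := by
      rcases hZ with hZ | hZ
      · have hneg : ∀ e ∈ R, gr P D t e < 0 := by
          intro e he
          by_contra hcon
          have h3 : e ∈ Zp := Finset.mem_filter.2
            ⟨he, lt_of_le_of_ne (not_lt.1 hcon) (hne e he).symm⟩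
          rw [hZ] at h3
          exact Finset.notMem_empty _ h3
        exact (Finset.sum_eq_zero_iff_of_nonpos fun e he =>
          mul_nonpos_of_nonpos_of_nonneg (hneg e he).le (sq_nonneg _)).1 hv
      · have hpos : ∀ e ∈ R, 0 < gr P D t e := by
          intro e he
          by_contra hcon
          have h3 : e ∈ Zm := Finset.mem_filter.2 ⟨he, hcon⟩
          rw [hZ] at h3
          exact Finset.notMem_empty _ h3
        exact (Finset.sum_eq_zero_iff_of_nonneg fun e he =>
          mul_nonneg (hpos e he).le (sq_nonneg _)).1 hv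
    have hz : ∀ e ∈ R, eval e (pol x) = 0 := by
      intro e he
      rcases mul_eq_zero.1 (hall e he) with h | h
      · exact absurd h (hne e he)
      · exact pow_eq_zero_iff two_ne_zero |>.1 h
    have hp0 : pol x = 0 := by
      apply Polynomial.eq_zero_of_natDegree_lt_card_of_eval_eq_zero' (pol x) R hz
      have := Pool.Agent.H34.N6.natDegree_pol x
      omega
    apply hx
    funext i
    have h3 := Pool.Agent.H34.N6.coeff_pol x i
    rw [hp0, coeff_zero] at h3
    rw [← h3]
    rfl
  rw [h1']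
  by_contra hcon
  rw [not_le] at hcon
  have h7'' : R.card = 7 ∧ (Zp.card = 0 ∨ Zm.card = 0) := by
    rcases abs_cases ((Zp.card : ℤ) - Zm.card) with ⟨h, h'⟩ | ⟨h, h'⟩ <;> rw [h] at hcon <;> omega
  apply hdef h7''.1
  rcases h7''.2 with h | h
  · exact Or.inl (Finset.card_eq_zero.1 h)
  · exact Or.inr (Finset.card_eq_zero.1 h)

end Pool.Agent.H18.WT
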